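import Pool.Agent.H33.AinfDefs
import Pool.Agent.H33.Myc

namespace Pool.Agent.Results.MP_2e37b9_an.Q1

open Set Submodule Filter Topology TopologicalSpace Pool.Agent.H33.AinfD Metric

variable {G : Set ℂ} (hG : IsOpen G)

lemma closed : IsClosed (Ainf G hG : Set (ℕ → C(closure G, ℂ))) := by
  classical
  have := (isClosed_closure (s := G)).locallyCompactSpace
  refine IsSeqClosed.isClosed fun u F hu hF => ?_
  choose f hf hu using hu
  let g : ℂ → ℂ := fun z => if h : z ∈ closure G then F 0 ⟨z, h⟩ else 0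
  have h0 : TendstoLocallyUniformlyOn f g atTop G := by
    have := ContinuousMap.tendsto_iff_tendstoLocallyUniformly.mp (tendsto_pi_nhds.mp hF 0)
    rw [tendstoLocallyUniformlyOn_iff_tendstoLocallyUniformly_comp_coe]
    have := this.comp (inclusion (subset_closure (s := G))) (continuous_inclusion _)
    convert this using 1
    · ext n z
      exact (hu n 0 ⟨z, subset_closure z.2⟩ z.2).symm
    · ext z
      exact dif_pos (subset_closure z.2)
  have h1 : ∀ j, TendstoLocallyUniformlyOn (fun n => iteratedDeriv j (f n)) (iteratedDeriv j g)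
      atTop G := fun j => by
    induction j with
    | zero => simpa using h0
    | succ j ih =>
      simp only [iteratedDeriv_succ]
      refine ih.deriv (.of_forall fun n => ?_) hG
      rw [iteratedDeriv_eq_iterate]
      exact (((hf n).analyticOnNhd hG).iterated_deriv j).differentiableOn
  refine ⟨g, h0.differentiableOn (.of_forall hf) hG, fun j z hz => ?_⟩
  refine tendsto_nhds_unique ?_ ((h1 j).tendsto_at hz)
  simp only [← hu _ j z hz]
  exact ((continuous_eval_const z).tendsto _).comp (tendsto_pi_nhds.mp hF j)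

def Bd : Submodule ℂ (ℕ → ℂ) where
  carrier := {a | ∃ m : ℝ, ∀ k, ‖a k‖ ≤ m}
  zero_mem' := ⟨0, by simp⟩
  add_mem' := fun ⟨m, h⟩ ⟨n, h'⟩ => ⟨m + n, fun k => norm_add_le_of_le (h k) (h' k)⟩
  smul_mem' := fun c _ ⟨m, h⟩ => ⟨‖c‖ * m, fun k => by
    rw [Pi.smul_apply, norm_smul]
    exact mul_le_mul_of_nonneg_left (h k) (norm_nonneg _)⟩

noncomputable def La (q : closure G) (r : ℝ) : Ainf G hG →ₗ[ℂ] (ℕ → ℂ) where
  toFun F k := F.1 k q * (r ^ k / k.factorial)
  map_add' F F' := by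
    ext k
    simp [add_mul]
  map_smul' c F := by
    ext k
    simp [mul_assoc]

noncomputable def ga (w : ℂ) (hw : w ∉ closure G) : Ainf G hG :=
  ⟨fun j => ⟨fun z => (-1) ^ j * j.factorial * 1 ^ j * (1 * z.1 - w) ^ (-1 - j : ℤ),
    continuous_const.mul (Continuous.zpow₀ (by fun_prop) _ fun z => Or.inl fun h => hw (by
      rw [one_mul, sub_eq_zero] at h
      exact h ▸ z.2))⟩, fun z => (1 * z - w)⁻¹, DifferentiableOn.inv (by fun_prop) fun z hz h =>
        hw (by
      rw [one_mul, sub_eq_zero] at h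
      exact h ▸ subset_closure hz), fun j z _ => by
    rw [iteratedDeriv_eq_iterate, iter_deriv_inv_linear_sub]
    rfl⟩

lemma codim (q : closure G) (r : ℝ) (w0 : ℂ) (h0 : w0 ∈ ball q.1 r \ closure G)
    (s : Set (Ainf G hG)) (hs : s.Finite) : Bd.comap (La hG q r) ⊔ span ℂ s ≠ ⊤ := by
  intro h
  let S : (ℕ → ℂ) →ₗ[ℂ] (ℕ → ℂ) := LinearMap.funLeft ℂ ℂ Nat.succ
  let T : Module.End ℂ ((ℕ → ℂ) ⧸ Bd) := Bd.mapQ Bd S fun a ⟨m, h⟩ => ⟨m, fun k => h _⟩
  let I := ↥(ball q.1 r \ closure G)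
  have hne : ∀ w : I, w.1 - q.1 ≠ 0 := fun w h => w.2.2 (by
    rw [sub_eq_zero.mp h]
    exact q.2)
  have hr : 0 < r := pos_of_mem_ball h0.1
  have hv : ∀ (w : I) k, La hG q r (ga hG w w.2.2) k = -(w.1 - q.1)⁻¹ * (r / (w.1 - q.1)) ^ k := by
    intro w k
    have := hne w
    have h2 : (k.factorial : ℂ) ≠ 0 := by exact_mod_cast k.factorial_ne_zero
    show (-1) ^ k * k.factorial * 1 ^ k * (1 * q.1 - w) ^ (-1 - k : ℤ) * (r ^ k / k.factorial) = _
    rw [one_mul, ← neg_sub w.1, zpow_sub₀ (neg_ne_zero.mpr this), zpow_natCast, neg_pow (w.1 - q.1)]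
    simp only [div_pow, zpow_neg, zpow_one, one_pow]
    field_simp
  have hi := T.eigenvectors_linearIndependent' (fun w : I => r / (w.1 - q.1)) (fun a b hab => by
      rw [div_eq_div_iff (hne a) (hne b), mul_right_inj' (by exact_mod_cast hr.ne'),
        sub_left_inj] at hab
      exact Subtype.ext hab.symm) (fun w => Bd.mkQ (La hG q r (ga hG w w.2.2))) fun w => by
    refine ⟨Module.End.mem_eigenspace_iff.mpr ?_, fun h => ?_⟩
    · rw [← map_smul]
      refine congrArg Bd.mkQ (funext fun k => ?_)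
      simp only [S, LinearMap.funLeft_apply, Pi.smul_apply, hv, pow_succ, smul_eq_mul]
      ring
    · obtain ⟨m, hm⟩ := (Quotient.mk_eq_zero _).mp h
      have h1 : 1 < ‖(r : ℂ) / (w.1 - q.1)‖ := by
        rw [norm_div, one_lt_div (norm_pos_iff.mpr (hne w)), Complex.norm_real,
          Real.norm_of_nonneg hr.le]
        exact mem_ball_iff_norm.mp w.2.1
      have h2 := (tendsto_pow_atTop_atTop_of_one_lt h1).const_mul_atTop
        (norm_pos_iff.mpr (inv_ne_zero (hne w)))
      obtain ⟨k, hk⟩ := (h2.eventually_gt_atTop m).exists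
      have := hm k
      rw [hv, norm_mul, norm_neg, norm_pow] at this
      linarith
  have := (hs.image (Bd.mkQ ∘ₗ La hG q r)).to_subtype
  have := hi.finite_of_le_span_finite _ ((Bd.mkQ ∘ₗ La hG q r) '' s) (by
    rintro _ ⟨w, rfl⟩
    obtain ⟨a, ha, b, hb, e⟩ := mem_sup.mp (h ▸ Submodule.mem_top : ga hG w w.2.2 ∈ _)
    have := congrArg (Bd.mkQ ∘ₗ La hG q r) e
    rw [map_add, LinearMap.comp_apply, mkQ_apply, (Quotient.mk_eq_zero _).mpr ha, zero_add] at this
    rw [← map_span]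
    exact ⟨b, hb, this⟩)
  exact infinite_of_mem_nhds w0 ((isOpen_ball.sdiff isClosed_closure).mem_nhds h0) (toFinite _)

theorem res (G : Set ℂ) (hG : IsOpen G) (_hc : IsConnected G) (hr : G = interior (closure G)) :
    ∃ E : Submodule ℂ (Ainf G hG), Dense (E : Set (Ainf G hG)) ∧
      (∀ F ∈ E, F ≠ 0 → NonExt G F.1) ∧ BaireSpace E := by
  have := (isClosed_closure (s := G)).locallyCompactSpace
  have := (closed hG).isCompletelyMetrizableSpace
  obtain ⟨D, hD, hd⟩ := exists_countable_dense G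
  have := hD.to_subtype
  let ι := {p : D × ℚ // (ball p.1.1.1 p.2 \ closure G).Nonempty}
  let L := fun p : ι => La hG ⟨p.1.1.1.1, subset_closure p.1.1.1.2⟩ p.1.2
  have a1 : ContinuousAdd (Ainf G hG) := (Submodule.topologicalAddGroup _).toContinuousAdd
  have a2 : ContinuousSMul ℂ (Ainf G hG) := inferInstance
  have a3 : SecondCountableTopology (Ainf G hG) := inferInstance
  have a4 : ∀ (p : ι) (m : ℕ), IsClosed {F | ∀ k, ‖L p F k‖ ≤ m} := fun p m => by
    rw [ofPred_forall]
    refine isClosed_iInter fun k => isClosed_le (Continuous.norm ?_) continuous_const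
    exact ((continuous_eval_const _).comp
      ((continuous_apply k).comp continuous_subtype_val)).mul continuous_const
  let U := upgradeIsCompletelyMetrizable (Ainf G hG)
  obtain ⟨E, h1, h2, h3⟩ := @Pool.Agent.H33.Myc.main (Ainf G hG) U.toMetricSpace _ _ a1 a2
    U.toCompleteSpace ι _ (fun p => Bd.comap (L p))
    (fun p => codim hG _ _ _ p.2.some_mem) (fun p m => {F | ∀ k, ‖L p F k‖ ≤ m}) a4 (fun p => by
      ext F
      simp only [mem_iUnion]
      refine ⟨fun ⟨m, h⟩ => ⟨⌈m⌉₊, fun k => (h k).trans (Nat.le_ceil _)⟩, fun ⟨m, h⟩ => ⟨m, h⟩⟩) a3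
  refine ⟨E, h1, fun F hF h0 ⟨Ω, g, o1, o2, o3, o4, o5⟩ => h0 ?_, h3⟩
  obtain ⟨ζ, z1, z2, z3⟩ : ∃ ζ ∈ Ω, ζ ∈ closure G ∧ ζ ∉ G := by
    by_contra hc
    push Not at hc
    exact o3.2 (o2.isPreconnected.subset_of_closure_inter_subset hG
      (by simpa [inter_eq_right.mpr o3.1] using _hc.nonempty) fun z hz => hc z hz.2 hz.1)
  obtain ⟨e, he, hb⟩ := Metric.isOpen_iff.mp o1 ζ z1
  obtain ⟨w, w1, w2⟩ : ∃ w ∈ ball ζ (e / 4), w ∉ closure G := by
    by_contra hc
    push Not at hc
    exact z3 (hr ▸ interior_maximal hc isOpen_ball (mem_ball_self (by positivity)))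
  obtain ⟨q, q1, q2⟩ := hd.exists_mem_open (isOpen_ball.preimage continuous_subtype_val
    (t := ball ζ (e / 4))) (by
      obtain ⟨y, y1, y2⟩ := _root_.mem_closure_iff.mp z2 _ isOpen_ball
        (mem_ball_self (by positivity : 0 < e / 4))
      exact ⟨⟨y, y2⟩, y1⟩)
  obtain ⟨r, r1, r2⟩ := exists_rat_btwn (by linarith : e / 2 < 3 * e / 4)
  have q3 : dist q.1 ζ < e / 4 := q2
  have hs : closedBall q.1 r ⊆ Ω := (closedBall_subset_ball' (by linarith)).trans hb
  have hw : w ∈ ball q.1 r := by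
    have := dist_triangle_right w q.1 ζ
    have := mem_ball.mp w1
    exact mem_ball.mpr (by linarith)
  refine h2 ⟨(⟨q, q1⟩, r), w, hw, w2⟩ F hF ?_
  have r0 : (0 : ℝ) < r := by linarith
  obtain ⟨M, hM⟩ := (isCompact_sphere q.1 r).exists_bound_of_continuousOn
    (o4.continuousOn.mono (sphere_subset_closedBall.trans hs))
  obtain ⟨f, f1, f2⟩ := F.2
  refine ⟨M, fun k => ?_⟩
  have := Complex.norm_iteratedDeriv_le_of_forall_mem_sphere_norm_le k r0
    ((o4.mono ((closure_ball_subset_closedBall).trans hs)).diffContOnCl) hM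
  have e1 : f =ᶠ[𝓝 q.1] g := by
    filter_upwards [hG.mem_nhds q.2] with z hz
    exact (f2 0 ⟨z, subset_closure hz⟩ hz).symm.trans (o5 ⟨z, subset_closure hz⟩ hz).symm
  show ‖F.1 k _ * _‖ ≤ M
  rw [f2 k _ q.2, e1.iteratedDeriv_eq, norm_mul, norm_div, norm_pow, Complex.norm_real,
    Real.norm_of_nonneg r0.le, Complex.norm_natCast, ← mul_div_assoc,
    div_le_iff₀ (by positivity), ← le_div_iff₀ (by positivity), mul_comm M]
  exact this

theorem result (G : Set ℂ) (hG : IsOpen G) (hc : IsConnected G) (hr : G = interior (closure G)) :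
    ∃ E : Submodule ℂ (A G hG), Dense (E : Set (A G hG)) ∧
      (∀ F ∈ E, F ≠ 0 → NonExt G F.1) ∧ BaireSpace E := res G hG hc hr

end Pool.Agent.Results.MP_2e37b9_an.Q1
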